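import Pool.Agent.R794.Equiv

/-!
# HoTT-injectivity does not depend only on the `1`-topos of `0`-truncated objects

We compare two ∞-toposes of presheaves of spaces:

* `P(Δ¹)`, the presheaves of spaces on the category `[1] = (d → c)`;
* `P(S)`, where `S` presents the ∞-category with two objects `d`, `c`, with mapping space
  `Map(d, c) = Bℤ` (a circle), contractible `Map(d, d)`, `Map(c, c)`, and empty `Map(c, d)`.

Their homotopy categories agree, so they have the same `1`-topos of `0`-truncated objects, the
presheaves of sets on `[1]`. The constant presheaf of abelian groups with value `ℚ` is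
HoTT-injective in `P(Δ¹)`. It is not HoTT-injective in `P(S)`: in the slice of `P(S)` over the
representable object of `c`, the `1`-topos of `0`-truncated objects is that of the presheaves on a
category in which `d` has the automorphism group `ℤ`, acting trivially on the morphism `d → c`,
and there the inclusion of a trivial representation `ℤ` of `ℤ` in a unipotent representation `ℤ²`
over `d` obstructs the extension of maps to `ℚ`.
-/

set_option autoImplicit false

namespace Pool.Agent.Results.MP_9c2d05_gt.DependsOnTopos

open CategoryTheory Simplicial Opposite
open Pool.Agent.R794.HoTT Pool.Agent.R794.Gerbe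

/-- There are two ∞-toposes `P(S)`, `P(T)` of presheaves of spaces on simplicial sets `S`, `T`, an
equivalence `e` between the homotopy categories of `S` and `T`, hence between the `1`-toposes of
`0`-truncated objects, and a module `I` over the constant ring `ℤ` which is HoTT-injective in
`P(T)`, while its image under the equivalence is not HoTT-injective in `P(S)`. One can take
`T = Δ¹`. -/
theorem result : ∃ (S : SSet.{0})
    (e : SSet.hoFunctor.obj S ≌ SSet.hoFunctor.obj (Δ[1] : SSet.{0}))
    (I : (SSet.hoFunctor.obj (Δ[1] : SSet.{0}))ᵒᵖ ⥤ ModuleCat.{0} ℤ),
    HoTTInjective Δ[1] I ∧ ¬ HoTTInjective S (e.functor.op ⋙ I) := by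
  have : Injective QQ := (AddCommGrpCat.injective_as_module_iff ℚ).2 inferInstance
  refine ⟨S, FF.asEquivalence, (Functor.const _).obj QQ, ?_, ?_⟩
  · intro E p hp
    exact internallyInjective_const (rf_over_initial hp) QQ _ rfl
  · intro h
    exact E_not_injective _ rfl (h E p p_rightFibration)

end Pool.Agent.Results.MP_9c2d05_gt.DependsOnTopos
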