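import Pool.Agent.R794.Ho
import Pool.Agent.R794.NotInj

/-!
# An internally injective module which is not HoTT-injective

The ∞-topos is `P(S)`, the presheaves of spaces on the ∞-category with two objects `d`, `c`, with
mapping space `Map(d, c) = Bℤ` (a circle), contractible `Map(d, d)`, `Map(c, c)`, and empty
`Map(c, d)`. The module is the constant presheaf of abelian groups with value `ℚ`. The base change
which is not internally injective is the one to the slice over the representable object of `c`.
-/

set_option autoImplicit false

namespace Pool.Agent.Results.MP_9c2d05_gt.InternalVsHoTT

open CategoryTheory Simplicial Opposite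
open Pool.Agent.R794.HoTT Pool.Agent.R794.Gerbe

/-- There is an ∞-topos `P(S)` of presheaves of spaces on a simplicial set `S` and a module `I`
over the constant ring `ℤ` in its `1`-topos of `0`-truncated objects which is internally injective
but not HoTT-injective. -/
theorem result : ∃ (S : SSet.{0}) (I : (SSet.hoFunctor.obj S)ᵒᵖ ⥤ ModuleCat.{0} ℤ),
    InternallyInjective I ∧ ¬ HoTTInjective S I := by
  have : Injective QQ := (AddCommGrpCat.injective_as_module_iff ℚ).2 inferInstance
  refine ⟨S, (Functor.const _).obj QQ, ?_, ?_⟩
  · exact internallyInjective_const S_over_initial QQ _ rfl
  · intro h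
    exact E_not_injective _ rfl (h E p p_rightFibration)

end Pool.Agent.Results.MP_9c2d05_gt.InternalVsHoTT
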